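import Pool.Agent.H59.LIN.Targets

/-!
# MP_559314_gt, board `lin_modules`, row CWU: the Conway polynomial is HOMFLYPT at `δ = 0`
-/

set_option autoImplicit false

open Polynomial Pool.Agent.H59.LIN

namespace Pool.Agent.H45.LIN

/-- evaluation of the coefficients at `0` -/
noncomputable def ph : KK →+* PowerSeries ℤ := PowerSeries.map (Polynomial.evalRingHom (0 : ℤ))

theorem ph_s : ph sK = PowerSeries.X := by
  unfold ph sK
  exact PowerSeries.map_X _

theorem ph_d : ph dK = 0 := by
  unfold ph dK
  rw [PowerSeries.map_C]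
  simp

theorem skn_map {T : (n : ℕ) → Wd n → KK} (h : Skn sK dK T) :
    Skn (PowerSeries.X : PowerSeries ℤ) 0 (fun n w => ph (T n w)) where
  one := by simp only [h.one, map_one]
  dis n w := by simp only [h.dis n w, map_mul, ph_d]
  stab n w b := by simp only [h.stab n w b]
  conj n u v := by simp only [h.conj n u v]
  cancel n u v i b := by simp only [h.cancel n u v i b]
  far n u v i j b c hij := by simp only [h.far n u v i j b c hij]
  braid n u v i j hij := by simp only [h.braid n u v i j hij]
  skein n u v i := by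
    simp only [h.skein n u v i, map_add, map_mul, map_sub, map_one, ph_d, ph_s]

theorem skn_conway {c : (n : ℕ) → Wd n → PowerSeries ℤ} (h : Conway c) :
    Skn (PowerSeries.X : PowerSeries ℤ) 0 c where
  one := h.one
  dis n w := by
    have h1 := h.skein (n + 1) (up w) [] (Fin.last n)
    have h2 := h.inv _ _ (Mv.stab n w true)
    have h3 := h.inv _ _ (Mv.stab n w false)
    simp only at h2 h3
    rw [← h2, ← h3, sub_self, List.append_nil] at h1
    rw [zero_mul]
    exact (mul_eq_zero.1 h1.symm).resolve_left PowerSeries.X_ne_zero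
  stab n w b := (h.inv _ _ (Mv.stab n w b)).symm
  conj n u v := h.inv _ _ (Mv.conj n u v)
  cancel n u v i b := h.inv _ _ (Mv.cancel n u v i b)
  far n u v i j b c hij := h.inv _ _ (Mv.far n u v i j b c hij)
  braid n u v i j hij := h.inv _ _ (Mv.braid n u v i j hij)
  skein n u v i := by
    have h1 := h.skein n u v i
    rw [mul_zero, sub_zero, one_mul, ← h1]
    ring

theorem pf_CWU (hUQ : Pool.Agent.H59.LIN.T_UQ) : Pool.Agent.H59.LIN.T_CWU := by
  intro T hT c hc m n w
  have h1 := hUQ (PowerSeries ℤ) PowerSeries.X 0 1 (fun n w => ph (T n w)) c (by ring)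
    (skn_map hT) (skn_conway hc) n w
  rw [← h1]
  unfold ph pc
  rw [PowerSeries.coeff_map, Polynomial.coe_evalRingHom, Polynomial.coeff_zero_eq_eval_zero]

end Pool.Agent.H45.LIN
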