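import Pool.Agent.H59.LIN.Targets

/-!
# MP_559314_gt, board `lin_modules`, row GEX: the basic symbols as functionals on words
-/

set_option autoImplicit false

open Finset Polynomial Pool.Agent.H59.LIN

namespace Pool.Agent.H45.LIN

/-! ### the value at the empty set -/

/-- the value at the empty set is a ring homomorphism -/
def ev0 (α : Type) [DecidableEq α] : SF α ℚ →+* ℚ where
  toFun f := f ∅
  map_one' := by rw [SF.one_def, if_pos rfl]
  map_zero' := rfl
  map_add' _ _ := rfl
  map_mul' f g := by
    rw [SF.mul_def, Finset.powerset_empty, Finset.sum_singleton, Finset.sdiff_empty]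

theorem ev0_smul {α : Type} [DecidableEq α] (c : ℚ) (f : SF α ℚ) :
    ev0 α (c • f) = c * ev0 α f := SF.smul_def' c f ∅

theorem ev0_eta {d : ℕ} (D : CD d) (m j : ℕ) (hm : m ≠ 0) : ev0 (Fin d) (eta D m j) = 0 := by
  change (if (∅ : Finset (Fin d)).card = m then ((hh D ∅).coeff j : ℚ) else 0) = 0
  rw [Finset.card_empty, if_neg (Ne.symm hm)]

theorem phi_empty {d : ℕ} (D : CD d) (b : ℕ × ℕ) : phi D b ∅ = 0 := by
  change ev0 (Fin d) (phi D b) = 0
  unfold phi
  split_ifs with h1 h2
  · exact ev0_eta D 2 0 (by norm_num)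
  · rw [ev0_smul, map_sub, ev0_smul, map_pow, ev0_eta D 2 0 (by norm_num),
      ev0_eta D _ 0 (by omega), zero_pow (by omega), mul_zero, sub_zero, mul_zero]
  · rw [map_sum]
    refine Finset.sum_eq_zero fun l _ => ev0_eta D _ _ ?_
    unfold mb
    omega

/-! ### sub-diagrams -/

theorem mem_sub {d : ℕ} (D : CD d) (A : Finset (Fin d)) (a : Fin d) (b : Bool) :
    (a, b) ∈ sub D A ↔ a ∈ A := by
  unfold sub
  rw [List.mem_filter, List.mem_ofFn]
  constructor
  · intro h
    exact of_decide_eq_true h.2
  · intro h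
    exact ⟨⟨D.symm (a, b), D.apply_symm_apply _⟩, decide_eq_true h⟩

theorem sub_eq {d : ℕ} {D D' : CD d} {A A' : Finset (Fin d)} (h : sub D A = sub D' A') :
    A = A' := by
  ext a
  rw [← mem_sub D A a true, h, mem_sub]

theorem sub_nil {d : ℕ} {D : CD d} {A : Finset (Fin d)} (h : sub D A = []) : A = ∅ := by
  rw [Finset.eq_empty_iff_forall_notMem]
  intro a ha
  have h1 := (mem_sub D A a true).2 ha
  rw [h] at h1
  exact List.not_mem_nil h1

theorem sub_univ {d : ℕ} (D : CD d) : sub D univ = List.ofFn D := by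
  unfold sub
  rw [List.filter_eq_self]
  intro x _
  exact decide_eq_true (Finset.mem_univ _)

theorem rel_id {d : ℕ} (x : Fin d × Bool) :
    rel (Function.Embedding.refl (Fin d)) x = x := rfl

theorem rel_inj {α β : Type} (j : α ↪ β) : Function.Injective (rel (j : α → β)) := by
  rintro ⟨a, b⟩ ⟨a', b'⟩ h
  have h1 : j a = j a' := congrArg Prod.fst h
  have h2 : b = b' := congrArg Prod.snd h
  rw [j.injective h1, h2]

/-- a list which contains every element once is an enumeration -/
theorem exists_cd {d : ℕ} (L : List (Fin d × Bool)) (hn : L.Nodup) (hL : ∀ x, x ∈ L) :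
    ∃ E : CD d, List.ofFn E = L := by
  have hlen : L.length = 2 * d := by
    have h1 : L.toFinset = univ := by
      ext x
      simp [hL x]
    rw [← List.toFinset_card_of_nodup hn, h1, Finset.card_univ, Fintype.card_prod,
      Fintype.card_fin, Fintype.card_bool, mul_comm]
  refine ⟨(finCongr hlen.symm).trans (List.Nodup.getEquivOfForallMemList L hn hL), ?_⟩
  refine List.ext_get ?_ ?_
  · rw [List.length_ofFn, hlen]
  · intro n h1 h2
    simp [List.Nodup.getEquivOfForallMemList]

/-- extension of a chord diagram -/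
theorem exists_ext {d d' : ℕ} (j : Fin d' ↪ Fin d) (D : CD d') :
    ∃ E : CD d, sub E (univ.map j) = (List.ofFn D).map (rel j) := by
  classical
  set L2 : List (Fin d × Bool) := (univ.filter fun x : Fin d × Bool => x.1 ∉ univ.map j).toList
    with hL2
  have hmem2 : ∀ x, x ∈ L2 ↔ x.1 ∉ univ.map j := by
    intro x
    rw [hL2, Finset.mem_toList, Finset.mem_filter]
    simp only [Finset.mem_univ, true_and]
  have hmem1 : ∀ x : Fin d × Bool, x ∈ (List.ofFn D).map (rel j) ↔ x.1 ∈ univ.map j := by
    intro x
    rw [List.mem_map, Finset.mem_map]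
    constructor
    · rintro ⟨y, -, rfl⟩
      exact ⟨y.1, Finset.mem_univ _, rfl⟩
    · rintro ⟨a, -, ha⟩
      refine ⟨(a, x.2), ?_, ?_⟩
      · rw [List.mem_ofFn]
        exact ⟨D.symm (a, x.2), D.apply_symm_apply _⟩
      · unfold rel
        exact Prod.ext ha rfl
  have hnd1 : ((List.ofFn D).map (rel j)).Nodup := by
    refine List.Nodup.map (rel_inj j) ?_
    rw [List.nodup_ofFn]
    exact D.injective
  obtain ⟨E, hE⟩ := exists_cd ((List.ofFn D).map (rel j) ++ L2) (by
    rw [List.nodup_append']
    refine ⟨hnd1, Finset.nodup_toList _, ?_⟩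
    intro x hx hx2
    exact (hmem2 x).1 hx2 ((hmem1 x).1 hx)) (by
    intro x
    rw [List.mem_append, hmem1, hmem2]
    exact em _)
  refine ⟨E, ?_⟩
  unfold sub
  rw [hE, List.filter_append]
  have h1 : ((List.ofFn D).map (rel j)).filter (fun x => decide (x.1 ∈ univ.map j)) =
      (List.ofFn D).map (rel j) := by
    rw [List.filter_eq_self]
    intro x hx
    exact decide_eq_true ((hmem1 x).1 hx)
  have h2 : L2.filter (fun x => decide (x.1 ∈ univ.map j)) = [] := by
    rw [List.filter_eq_nil_iff]
    intro x hx hx2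
    exact (hmem2 x).1 hx (of_decide_eq_true hx2)
  rw [h1, h2, List.append_nil]

theorem alt_map {γ γ' M : Type} [AddCommGroup M] (f : γ → γ') (G : List γ' → M)
    (P : List (Pl γ)) : ∀ u : List γ,
      alt G (u.map f) (P.map (Pl.map f)) = alt (fun u => G (u.map f)) u P := by
  induction P with
  | nil => intro u; rfl
  | cons p P ih =>
    intro u
    cases p with
    | si a =>
      have h1 := ih (u ++ [a])
      rw [List.map_append] at h1
      exact h1
    | pr a b =>
      have h1 := ih (u ++ [a, b])
      have h2 := ih (u ++ [b, a])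
      rw [List.map_append] at h1 h2
      change alt G (u.map f ++ [f a, f b]) (P.map (Pl.map f)) -
        alt G (u.map f ++ [f b, f a]) (P.map (Pl.map f)) = _
      change _ = alt (fun u => G (u.map f)) (u ++ [a, b]) P -
        alt (fun u => G (u.map f)) (u ++ [b, a]) P
      rw [← h1, ← h2]
      rfl

theorem pf_GEX (hPHL : Pool.Agent.H59.LIN.T_PHL) : Pool.Agent.H59.LIN.T_GEX := by
  classical
  intro d b'
  let G : List (Fin d × Bool) → ℚ := fun u =>
    if h : ∃ q : CD d × Finset (Fin d), sub q.1 q.2 = u then phi h.choose.1 b' h.choose.2 else 0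
  have hG : ∀ (D : CD d) A, phi D b' A = G (sub D A) := by
    intro D A
    have h : ∃ q : CD d × Finset (Fin d), sub q.1 q.2 = sub D A := ⟨(D, A), rfl⟩
    have h1 : G (sub D A) = phi h.choose.1 b' h.choose.2 := dif_pos h
    have h2 : h.choose.2 = A := sub_eq h.choose_spec
    have h4 := h.choose_spec
    rw [h1]
    rw [h2] at h4 ⊢
    have h3 := hPHL d d D h.choose.1 (Function.Embedding.refl _) A b' (by
      rw [Finset.map_refl, h4]
      symm
      exact List.map_id'' (fun x => rel_id x) _)
    rw [Finset.map_refl] at h3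
    exact h3
  refine ⟨G, ?_, hG, ?_⟩
  · by_cases h : ∃ q : CD d × Finset (Fin d), sub q.1 q.2 = []
    · have h1 : G [] = phi h.choose.1 b' h.choose.2 := dif_pos h
      rw [h1, sub_nil h.choose_spec, phi_empty]
    · exact dif_neg h
  · intro b j x hx
    have h1 := alt_map (rel j) G (PL b) []
    rw [List.map_nil] at h1
    rw [h1, ← hx ℚ (fun u => G (u.map (rel j)))]
    refine Finset.sum_congr rfl fun D _ => ?_
    obtain ⟨E, hE⟩ := exists_ext j D
    have h2 := hPHL d (mb b) E D j univ b' (by rw [hE, sub_univ])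
    rw [← h2, hG E, hE]

end Pool.Agent.H45.LIN
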